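import Mathlib
import Pool.Agent.PercM.CmpW

/-! # The one-arm probability of a critical half-space glued to a medium with weak layers -/

namespace Pool.Agent.Perc.Variants.ArmComparison

open Pool.Agent.Perc Pool.Agent.PercM

/-- Let `d ≥ 2`, let `i` be a coordinate, `q < p_c(d)` and `K` a natural number. There are `η > 0`
and `C > 0` such that for every field `r` with `r x ≤ p_c(d)` for `x i > 0`, `r x ≤ p_c(d) + η` for
`x i ≤ 0`, and such that among every `K + 1` consecutive heights `h ≤ 0` there is one with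
`r x ≤ q` for all `x` with `x i = h`, and for every `n`: the probability that the open cluster of
`0` contains a site `t` with `0 ≤ t i` and `|t|_∞ ≥ n` is at most `C` times the probability, at
`p_c(d)`, that the open cluster of `0` in the half-space `{x | 0 ≤ x i}` contains a site `t` with
`|t|_∞ ≥ n`. -/
theorem result (d : ℕ) (hd : 2 ≤ d) (i : Fin d) (q : unitInterval) (hq : q < pc d) (K : ℕ) :
    ∃ η C : ℝ, 0 < η ∧ 0 < C ∧ ∀ r : Site d → unitInterval,
      (∀ x : Site d, 0 < x i → (r x : ℝ) ≤ (pc d : ℝ)) →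
      (∀ x : Site d, x i ≤ 0 → (r x : ℝ) ≤ (pc d : ℝ) + η) →
      (∀ h : ℤ, h ≤ 0 → ∃ k : ℕ, k ≤ K ∧ ∀ x : Site d, x i = h - k → r x ≤ q) → ∀ n : ℕ,
        law r {ω | ∃ t ∈ cluster ω 0, 0 ≤ t i ∧ ∃ j, (n : ℤ) ≤ |t j|} ≤
          ENNReal.ofReal C *
            mu d (pc d) {ω | ∃ t ∈ cluster (ω ∩ {x | 0 ≤ x i}) 0, ∃ j, (n : ℤ) ≤ |t j|} :=
  comparison_weak hd i hq K

end Pool.Agent.Perc.Variants.ArmComparison
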