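import Mathlib
import Pool.Agent.Cone.FIN

/-! # Polynomial decay of the critical one-arm probability in cones -/

namespace Pool.Agent.Perc.Variants.ConeArm

open Pool.Agent.Perc

/-- Let `i ≠ j` be two coordinates of `ℤ ^ d` (so `d ≥ 2`) and `κ > 0`. There are `C, a > 0` such
that for site percolation on `ℤ ^ d` at the critical point, for every `n ≥ 1`, the probability that
the origin is joined to a site `x` with `x i ≥ n` by an open path which stays in the wedge
`|y j| ≤ κ y i` is at most `C n ^ (-a)`. -/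
theorem result (d : ℕ) (i j : Fin d) (hij : i ≠ j) (κ : ℝ) (hκ : 0 < κ) :
    ∃ C a : ℝ, 0 < C ∧ 0 < a ∧ ∀ n : ℕ, 1 ≤ n →
      (mu d (pc d)).real {ω | ∃ x : Site d,
        Jn Nbr (ω ∩ {y | |(y j : ℝ)| ≤ κ * (y i : ℝ)}) 0 x ∧ (n : ℤ) ≤ x i} ≤
        C * (n : ℝ) ^ (-a) :=
  Pool.Agent.Cone.cone_arm_real hij κ hκ

end Pool.Agent.Perc.Variants.ConeArm
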