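import Mathlib
import Pool.Agent.Perc.XiDiv

/-! # The truncated correlation length diverges as `p` decreases to the critical point

For every `d ≥ 3` there are `A, a, η > 0` such that for `p_c < p < p_c + η` and all `n`,
the probability that `0` and `n e_i` lie in the same finite open cluster is at least
`(p - p_c) exp (-A (p - p_c)^a n)`. So the correlation length of the finite clusters is at least
`(p - p_c)^(-a) / A`. -/

namespace Pool.Agent.Results.MP_e13933_pr.CorrelationLength

open Pool.Agent.Perc MeasureTheory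

theorem result (d : ℕ) (hd : 3 ≤ d) : ∃ A a η : ℝ, 0 < A ∧ 0 < a ∧ 0 < η ∧
    ∀ p : unitInterval, (pc d : ℝ) < p → (p : ℝ) < pc d + η → ∀ (i : Fin d) (n : ℕ),
      ((p : ℝ) - pc d) * Real.exp (-(A * ((p : ℝ) - pc d) ^ a * n)) ≤
        (mu d p).real
          {ω : Set (Site d) | (Pi.single i (n : ℤ) : Site d) ∈ cluster ω 0 ∧
            (cluster ω 0).Finite} := by
  obtain ⟨A, a, η, hA, ha, hη, -, h⟩ := xi_bound (d := d) hd
  refine ⟨A, a, η, hA, ha, hη, ?_⟩
  intro p h1 h2 i n
  have habs : |(p : ℝ) - (pc d : ℝ)| = (p : ℝ) - pc d := abs_of_pos (by linarith)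
  have h3 := h p (by rw [habs]; linarith) (by rw [habs]; linarith) i n
  rw [habs] at h3
  exact h3

end Pool.Agent.Results.MP_e13933_pr.CorrelationLength
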