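import Mathlib
import Pool.Agent.PercM.ThmW
import Pool.Agent.BGN.FIN

/-! # No percolation for a critical half-space glued to a medium with weak layers, `d ≥ 3` -/

namespace Pool.Agent.Perc.Variants.CriticalHalfSpace

open Pool.Agent.Perc Pool.Agent.PercM

/-- Let `d ≥ 3`, let `i` be a coordinate, `q < p_c(d)` and `K` a natural number. There is `η > 0`
such that for every field `r` on `ℤ ^ d` with `r x ≤ p_c(d)` for `x i > 0`, `r x ≤ p_c(d) + η` for
`x i ≤ 0`, and such that among every `K + 1` consecutive heights `h ≤ 0` there is one with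
`r x ≤ q` for all `x` with `x i = h`: if every site `x` is open with probability `r x`,
independently, then almost surely all open clusters are finite. -/
theorem result (d : ℕ) (hd : 3 ≤ d) (i : Fin d) (q : unitInterval) (hq : q < pc d) (K : ℕ) :
    ∃ η : ℝ, 0 < η ∧ ∀ r : Site d → unitInterval,
      (∀ x : Site d, 0 < x i → (r x : ℝ) ≤ (pc d : ℝ)) →
      (∀ x : Site d, x i ≤ 0 → (r x : ℝ) ≤ (pc d : ℝ) + η) →
      (∀ h : ℤ, h ≤ 0 → ∃ k : ℕ, k ≤ K ∧ ∀ x : Site d, x i = h - k → r x ≤ q) →
        ∀ᵐ ω ∂(law r), ∀ x, (cluster ω x).Finite :=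
  main_weak (by omega) i (Pool.Agent.BGN.bgn hd i) hq K

end Pool.Agent.Perc.Variants.CriticalHalfSpace
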