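import Mathlib
import Pool.Agent.Perc.Holes

/-! # The radius of a finite critical cluster has at most polynomial decay, all `d ≥ 3`

At `p = p_c(d)`, for every `k ≥ 1`, with probability at least `c / k^A` the open cluster of the
origin reaches sup-distance `k` and is contained in the box of radius `(2k)^B`. -/

namespace Pool.Agent.Perc.Variants.TruncatedRadius

open Pool.Agent.Perc MeasureTheory

theorem result (d : ℕ) (hd : 3 ≤ d) : ∃ (A B : ℕ) (c : ℝ), 0 < c ∧ ∀ k : ℕ, 1 ≤ k →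
    c / (k : ℝ) ^ A ≤
      (mu d (pc d)).real
        {ω | (∃ y ∈ cluster ω 0, ∃ i, |y i| = (k : ℤ)) ∧
          cluster ω 0 ⊆ (↑(box (0 : Site d) ((2 * k) ^ B)) : Set (Site d))} := by
  obtain ⟨B, q, hq0, hq⟩ := block_hole d hd
  refine ⟨2 * d + B * d, 2 * B + 1, q / ((9 * 4 ^ B) ^ d * 5 ^ (2 * d)), by positivity, ?_⟩
  intro k hk
  have hk2 : 2 ≤ 2 * k := by omega
  set r := (2 * (k + 1)) ^ B with hr
  have hr1 : 1 ≤ r := Nat.one_le_pow _ _ (by omega)
  -- probability of a hole at the origin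
  have hr4 : r ≤ 4 ^ B * k ^ B := by
    rw [hr, ← mul_pow]
    exact Nat.pow_le_pow_left (by omega) _
  have hcov := holeP_cover (d := d) (pc d) (k := k + 1) (r := r) (m := r) (n := 0) (s := r)
    (by omega)
  have h0 := hq (k + 1) (by omega)
  rw [← hr] at h0
  -- transfer to the isolation event
  have hiso : holeP d (pc d) (k + 1) r 0 0 ≤
      Pr (pc d : ℝ) (box (0 : Site d) ((2 * k) ^ (2 * B + 1)))
        (Iso (k + 1) ((2 * k) ^ (2 * B + 1))) := by
    rw [← mu_real_trace]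
    unfold holeP
    refine measureReal_mono ?_ (measure_ne_top _ _)
    rintro ω ⟨x, hx, hh⟩
    have hx0 : x = 0 := by
      funext i
      have := mem_box_zero.1 hx i
      have h2 : |x i| ≤ 0 := by exact_mod_cast this
      exact abs_nonpos_iff.1 h2
    subst hx0
    intro a ha y hy hj
    obtain ⟨i, hi⟩ := hy
    rw [coe_trace] at hj
    have h1 := mem_box_zero.1 (hh a ha y (hj.mono Set.inter_subset_left)) i
    have h2 : r < (2 * k) ^ (2 * B + 1) := by
      have h3 : r ≤ (2 * k) ^ (2 * B) := by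
        rw [hr, pow_mul]
        apply Nat.pow_le_pow_left
        nlinarith
      have h4 : 1 ≤ (2 * k) ^ (2 * B) := Nat.one_le_pow _ _ (by omega)
      rw [pow_succ]
      nlinarith
    have h3 : ((r : ℕ) : ℤ) < (((2 * k) ^ (2 * B + 1) : ℕ) : ℤ) := by exact_mod_cast h2
    omega
  have hK : k + 1 ≤ (2 * k) ^ (2 * B + 1) := by
    have h1 : (2 * k) ^ 1 ≤ (2 * k) ^ (2 * B + 1) := Nat.pow_le_pow_right (by omega) (by omega)
    rw [pow_one] at h1
    omega
  have htr := trunc_ge (d := d) (by omega) hK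
  refine le_trans ?_ htr
  have hdl : (1 : ℝ) / (5 * k) ^ (2 * d) ≤ dl d k := by
    unfold dl
    apply one_div_le_one_div_of_le (by positivity)
    apply pow_le_pow_left₀ (by positivity)
    have : (1 : ℝ) ≤ k := by exact_mod_cast hk
    linarith
  have hk0 : (0 : ℝ) < k := by exact_mod_cast hk
  have hhole : q / (9 * 4 ^ B) ^ d / (k : ℝ) ^ (B * d) ≤ holeP d (pc d) (k + 1) r 0 0 := by
    have h5 : q ≤ (2 * (r : ℝ) + 1) ^ d * holeP d (pc d) (k + 1) r 0 0 := h0.trans hcov
    have h6 : (2 * (r : ℝ) + 1) ^ d ≤ (9 * 4 ^ B) ^ d * (k : ℝ) ^ (B * d) := by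
      rw [pow_mul, ← mul_pow]
      apply pow_le_pow_left₀ (by positivity)
      have h7 : (r : ℝ) ≤ 4 ^ B * (k : ℝ) ^ B := by exact_mod_cast hr4
      have h8 : (1 : ℝ) ≤ r := by exact_mod_cast hr1
      nlinarith [h7, h8]
    rw [div_div, div_le_iff₀ (by positivity)]
    refine h5.trans ?_
    rw [mul_comm]
    exact mul_le_mul_of_nonneg_left h6 (holeP_nonneg _ _ _ _ _)
  calc q / ((9 * 4 ^ B) ^ d * 5 ^ (2 * d)) / (k : ℝ) ^ (2 * d + B * d)
      = 1 / (5 * k) ^ (2 * d) * (q / (9 * 4 ^ B) ^ d / (k : ℝ) ^ (B * d)) := by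
        rw [mul_pow (5 : ℝ) (k : ℝ), pow_add]
        field_simp
    _ ≤ dl d k * Pr (pc d : ℝ) (box (0 : Site d) ((2 * k) ^ (2 * B + 1)))
        (Iso (k + 1) ((2 * k) ^ (2 * B + 1))) := by
        apply mul_le_mul hdl (hhole.trans hiso) (by positivity) (dl_pos d k).le

end Pool.Agent.Perc.Variants.TruncatedRadius
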