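import Mathlib
import Pool.Agent.Perc.TwoPoint

/-! # The truncated two-point function at the critical point, all dimensions `d ≥ 3`

At `p = p_c(d)`, for all `r ≥ 1` and all `x` in the box of radius `r`, with probability at least
`1 / (C r^C)` the open cluster of the origin contains `x` and is contained in the box of radius
`C r^C`. -/

namespace Pool.Agent.Results.MP_e13933_pr.TruncatedTwoPoint

open Pool.Agent.Perc MeasureTheory

theorem result (d : ℕ) (hd : 3 ≤ d) : ∃ C : ℕ, 0 < C ∧ ∀ r : ℕ, 1 ≤ r →
    ∀ x ∈ box (0 : Site d) r,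
      1 / ((C : ℝ) * (r : ℝ) ^ C) ≤
        (mu d (pc d)).real
          {ω : Set (Site d) | x ∈ cluster ω 0 ∧
            cluster ω 0 ⊆ (↑(box (0 : Site d) (C * r ^ C)) : Set (Site d))} :=
  two_point hd

end Pool.Agent.Results.MP_e13933_pr.TruncatedTwoPoint
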